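import Pool.Agent.H29.Herm

set_option autoImplicit false

namespace Pool.Agent.Results.MP_987215_an.AtZero

open Classical

/-- The number of times `w` occurs in the list `z`. -/
noncomputable def mult {n : ℕ} (z : Fin n → ℂ) (w : ℂ) : ℕ :=
  (Finset.univ.filter (fun j => z j = w)).card

/-- The list `z` is self-conjugate. -/
def SelfConj {n : ℕ} (z : Fin n → ℂ) : Prop :=
  (∀ w : ℂ, w.im ≠ 0 → mult z w = mult z (starRingEnd ℂ w)) ∧ ∀ w : ℂ, w.im = 0 → Even (mult z w)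

/-- `p` is the Hermite interpolant of `g` at the nodes `z`. -/
def IsHermite {n : ℕ} (z : Fin n → ℂ) (g : ℂ → ℂ) (p : Polynomial ℂ) : Prop :=
  p.degree < (n : WithBot ℕ) ∧ ∀ j : Fin n, ∀ i < mult z (z j),
    iteratedDeriv i (fun x => p.eval x) (z j) = iteratedDeriv i g (z j)

theorem result : ∃ n k : ℕ, 1 ≤ n ∧ k ≤ n - 1 ∧ ∃ z : Fin n → ℂ, (∀ j, ‖z j‖ ≤ 1) ∧
    (∀ j, 0 < (z j).re) ∧ SelfConj z ∧ ∃ (g : ℂ → ℂ) (p : Polynomial ℂ), Differentiable ℂ g ∧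
      (∀ w : ℂ, ‖w‖ ≤ 1 → ‖iteratedDeriv n g w‖ ≤ 1) ∧ IsHermite z g p ∧
      ‖iteratedDeriv k (fun x => ∏ j, (x - z j)) 0‖ / n.factorial <
        ‖iteratedDeriv k g 0 - iteratedDeriv k (fun x => p.eval x) 0‖ := by
  obtain ⟨z, h1, h0, h2, h3, g, p, a1, a2, a3, a4, a5⟩ :=
    Pool.Agent.H29.Herm.key (1 / 10) (9 / 10) 0 (by norm_num) (by norm_num) (by norm_num [abs_of_pos])
  refine ⟨2, 1, by norm_num, by norm_num, z, h1, fun j => by rw [h0]; norm_num, ⟨h2, h3⟩, g, p, a1,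
    a2, ⟨a3, a4⟩, ?_⟩
  simpa [Polynomial.eval_prod] using a5

end Pool.Agent.Results.MP_987215_an.AtZero
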